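import Pool.Agent.BEB.Stmts

/-!
# BEB, row LPF: the Laplacian of `|x|^(2c) H`
-/

set_option autoImplicit false

namespace Pool.Agent.BEB.H52

open Pool.Agent.BEB MvPolynomial

theorem pd_rho (i : Fin 3) : pderiv i rho = 2 * (X i : Pl) := by
  unfold rho
  rw [map_sum, Finset.sum_eq_single i]
  · rw [Derivation.leibniz_pow, pderiv_X_self]
    simp
  · intro j _ hj
    rw [Derivation.leibniz_pow, pderiv_X_of_ne hj]
    simp
  · intro h
    exact absurd (Finset.mem_univ i) h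

theorem hC2 : (C (2 : ℝ) : Pl) = 2 := map_ofNat C 2

theorem pd_pow (c : ℕ) (i : Fin 3) :
    pderiv i (rho ^ (c + 1)) = C (2 * ((c : ℝ) + 1)) * rho ^ c * X i := by
  rw [Derivation.leibniz_pow, pd_rho, Nat.add_sub_cancel]
  have h1 : (C (2 * ((c : ℝ) + 1)) : Pl) = 2 * ((c : Pl) + 1) := by
    rw [C_mul, C_add, C_1, hC2]
    simp
  rw [h1, nsmul_eq_mul, smul_eq_mul]
  push_cast
  ring

theorem hom_rho : (rho).IsHomogeneous 2 := by
  unfold rho
  apply IsHomogeneous.sum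
  intro i _
  exact (isHomogeneous_X ℝ i).pow 2

theorem euler_rho (c : ℕ) : ∑ i : Fin 3, X i * pderiv i (rho ^ c) = (2 * (c : Pl)) * rho ^ c := by
  have h := (hom_rho.pow c).sum_X_mul_pderiv
  rw [h, nsmul_eq_mul]
  push_cast
  ring

theorem lpf : LpfStmt := by
  intro l c H hH hl
  have hE := hH.sum_X_mul_pderiv
  rw [nsmul_eq_mul] at hE
  have hR := euler_rho c
  unfold lap at hl ⊢
  have h1 : ∀ i : Fin 3, pderiv i (pderiv i (rho ^ (c + 1) * H)) =
      C (2 * ((c : ℝ) + 1)) * (X i * pderiv i (rho ^ c)) * H +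
      C (2 * ((c : ℝ) + 1)) * rho ^ c * H +
      2 * (C (2 * ((c : ℝ) + 1)) * rho ^ c * (X i * pderiv i H)) +
      rho ^ (c + 1) * pderiv i (pderiv i H) := by
    intro i
    simp only [pderiv_mul, map_add, pd_pow, pderiv_C, pderiv_X_self]
    ring
  simp only [h1]
  rw [Finset.sum_add_distrib, Finset.sum_add_distrib, Finset.sum_add_distrib,
    ← Finset.sum_mul, ← Finset.mul_sum, hR, Finset.sum_const, ← Finset.mul_sum,
    ← Finset.mul_sum, hE, ← Finset.mul_sum, hl, Finset.card_univ, Fintype.card_fin,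
    nsmul_eq_mul]
  have h2 : (C (2 * ((c : ℝ) + 1) * (2 * ((c : ℝ) + 1) + 2 * l + 1)) : Pl) =
      C (2 * ((c : ℝ) + 1)) * (2 * ((c : Pl) + 1) + 2 * (l : Pl) + 1) := by
    rw [C_mul]
    congr 1
    rw [C_add, C_add, C_1, C_mul, C_mul, C_add, C_1, hC2]
    simp
  rw [h2]
  push_cast
  ring

end Pool.Agent.BEB.H52
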